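import Mathlib
import Pool.Agent.Work.MP_8093a3_co.Game
import Pool.Agent.Work.MP_8093a3_co.All

/-!
# Almost all positions of Beanstalk are decided

The drawn positions of Beanstalk (Isbell's game: even `n` goes to `n/2`, odd `n` to `3n+1` or
`3n-1` at the choice of the mover; whoever makes the move to `1` wins) have natural density zero.

Sketch. From an odd `n ≥ 3` the mover keeps the choice as long as he uses moves
`3n ± 1 = 2^v m` with `v` odd, never loses, and wins if he reaches some `(4^j-1)/3`, `j ≥ 2`.
A path of `k` such moves with total exponent `V` ends near `3^k n/2^V`, and whether a path of type
`(k,V)` exists depends only on `n` modulo `2^(V+1)`. Almost all classes have paths of every type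
near the line `V = 5k/3` (module `LatRec`); in blocks, a trajectory can be steered back to the exact
line at almost all times, with an error that does not depend on the length (`TrajProps`,
`FailCount`). So a drawn number forces drawn numbers near prescribed places at most smaller
scales, which gives a recursion for the proportion of places near which there is a drawn
number, with constants whose product converges (`StepLemma`, `ThmC`). The recursion starts at
arbitrarily long intervals without drawn odd numbers, found by merging the trajectories of all
numbers of a shifted interval (`Merge`, `WFullEx`), and an irrational rotation moves it to all
places (`Cover`, `DensD`).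
-/

namespace Pool.Agent.Results.MP_8093a3_co.DrawsDensityZero

/-- The proportion of drawn positions of Beanstalk among `1, …, N` tends to zero. -/
theorem result :
    Filter.Tendsto
      (fun N : ℕ => ({n : ℕ | 1 ≤ n ∧ n ≤ N ∧ Beanstalk.Drawn n}.ncard : ℝ) / N)
      Filter.atTop (nhds 0) :=
  Beanstalk.main

end Pool.Agent.Results.MP_8093a3_co.DrawsDensityZero
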